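import Pool.Agent.TH686.DO.Bor
import Pool.Agent.W889.SD.Deg

set_option autoImplicit false

/-! Faithful completeness from first-order interpretations. -/

namespace Pool.Agent.Q216.MI

open FirstOrder FirstOrder.Language
open Pool.Agent.W889.FO Pool.Agent.W889.VC
open Pool.Agent.W889.FO.StE (LG gd siso_gd)
open Pool.Agent.W889.SD (Nth bp_nth)
open Pool.Agent.TH686.FO (L2 R2 g1 g2 ps ps1 ps2 ps_ofp siso_ps ofp)
open Pool.Agent.TH686.DO (faithful_interp' piso_of siso_ofp piso_ofp siso_ofp_ps)

/-- codings of the structures of a language -/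
structure Coding (L : FirstOrder.Language.{0, 0}) (Z : Type) [MeasurableSpace Z]
    (E : Z → Z → Prop) where
  /-- decoding -/
  of : Z → L.Structure ℕ
  /-- coding -/
  cd : L.Structure ℕ → Z
  ofcd : ∀ S, SIso (of (cd S)) S
  iso : ∀ y z, E y z ↔ SIso (of y) (of z)
  bp : ∀ (n : ℕ) (R : L.Relations n) (a : Fin n → ℕ),
    BP (fun y : Z => @Structure.RelMap L ℕ (of y) n R a)
  me : ∀ {Y : Type} [MeasurableSpace Y] (f : Y → L.Structure ℕ),
    (∀ (n : ℕ) (R : L.Relations n) (a : Fin n → ℕ),
      BP (fun y => @Structure.RelMap L ℕ (f y) n R a)) → Measurable (fun y => cd (f y))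

variable {L L' : FirstOrder.Language.{0, 0}} {Z Y : Type} [MeasurableSpace Z] [MeasurableSpace Y]
  {E0 : Z → Z → Prop} {E : Y → Y → Prop}

theorem Coding.bp_ax [L.IsRelational] [Countable (Σ n, L.Relations n)] (c : Coding L Z E0)
    {W : L.Structure ℕ → Prop} (h : Ax W) : BP (fun y : Z => W (c.of y)) := by
  have hsc : Countable L.Sentence := countable_sentence
  obtain ⟨T, hT⟩ := h
  have hT' : Countable T := Subtype.countable
  have h1 : BP (fun y : Z => ∀ φ : T, @Sentence.Realize L ℕ (c.of y) φ.1) :=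
    BP.all fun φ => bp_sentence (fun n R a => c.bp n R a) φ.1
  refine h1.congr fun y => ?_
  rw [← hT]
  constructor
  · exact fun h2 => ax_iff.2 fun φ hφ => h2 ⟨φ, hφ⟩
  · exact fun h2 φ => ax_iff.1 h2 φ.1 φ.2

section

variable [L.IsRelational] [L'.IsRelational] [Countable (Σ n, L'.Relations n)]
  (c0 : Coding L Z E0) (c : Coding L' Y E) (I : Itp L L')

open Classical in
/-- the interpreted structure -/
noncomputable def dl (y : Y) : Z :=
  if y ∈ {y : Y | I.W (c.of y)} then c0.cd (I.D (c.of y))
  else c0.cd { funMap := fun {_} f => isEmptyElim f, RelMap := fun {_} _ _ => False }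

omit [Countable (Σ n, L'.Relations n)] [L'.IsRelational] in
theorem dl_of {y : Y} (h : I.W (c.of y)) : dl c0 c I y = c0.cd (I.D (c.of y)) := if_pos h

theorem measurable_dl : Measurable (dl c0 c I) := by
  classical
  let s : Set Y := {y : Y | I.W (c.of y)}
  have hs : MeasurableSet s := c.bp_ax I.axW
  let f : s → L'.Structure ℕ := fun y => c.of y.1
  have hb : ∀ (n : ℕ) (R : L'.Relations n) (a : Fin n → ℕ),
      BP (fun y => @Structure.RelMap L' ℕ (f y) n R a) := fun n R a =>
    measurable_subtype_coe (c.bp n R a)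
  have hW : ∀ y, I.W (f y) := fun y => y.2
  have hdom : ∀ u, BP (fun y => I.dom (f y) u) := fun u => I.fdom.bp hb hW (fun _ => u)
  have hD : ∀ (n : ℕ) (R : L.Relations n) (v : Fin n → ℕ),
      BP (fun y => @Structure.RelMap L ℕ (I.D (f y)) n R v) := fun n R v =>
    BP.ex fun u : Fin n → ℕ => (BP.all fun i => bp_nth hdom (v i) (u i)).and
      ((I.frel R).bp hb hW u)
  have hF : Measurable (fun y : s => c0.cd (I.D (f y))) := c0.me _ hD
  have h := Measurable.dite (s := s) hF (g := fun _ => c0.cd
    { funMap := fun {_} f => isEmptyElim f, RelMap := fun {_} _ _ => False })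
    measurable_const hs
  convert h using 1
  funext y
  unfold dl
  by_cases hy : y ∈ s
  · rw [dif_pos hy, if_pos hy]
  · rw [dif_neg hy, if_neg hy]

/-- faithful completeness from a first-order interpretation -/
theorem itp_faithful (hup : ∀ S S', I.W S → I.W S' → SIso (I.D S) (I.D S') → SIso S S')
    {K0 : Z → Prop} {K : Y → Prop} (hF : Faithful E0 K0)
    (hex : ∀ x, K0 x → ∃ S, I.W S ∧ SIso (I.D S) (c0.of x))
    (hK : ∀ y, I.W (c.of y) → K y) : Faithful E K := by
  refine faithful_interp' hF (W := fun y => I.W (c.of y)) (δ := dl c0 c I)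
    (fun y z h => (c.iso z y).2 ((c.iso y z).1 h).symm)
    (fun y z h => (c0.iso z y).2 ((c0.iso y z).1 h).symm) (c.bp_ax I.axW) (measurable_dl c0 c I)
    (fun y z h hy => I.W_iso (S := c.of y) hy ((c.iso y z).1 h)) (fun y z hy hz => ?_)
    (fun x hx => ?_) hK
  · rw [dl_of c0 c I hy, dl_of c0 c I hz, c.iso, c0.iso]
    constructor
    · intro h
      exact ((c0.ofcd _).trans (I.iso_down (S := c.of y) hy h)).trans (c0.ofcd _).symm
    · intro h
      exact hup _ _ hy hz (((c0.ofcd _).symm.trans h).trans (c0.ofcd _))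
  · obtain ⟨S, h1, h2⟩ := hex x hx
    have h3 := (c.ofcd S).symm
    have h4 : I.W (c.of (c.cd S)) := I.W_iso (S := S) h1 h3
    refine ⟨c.cd S, h4, ?_⟩
    rw [dl_of c0 c I h4, c0.iso]
    exact (c0.ofcd _).trans ((I.iso_down (S := S) h1 h3).symm.trans h2)

end

/-- the graph structure of a binary relation -/
@[reducible] def ofg (y : BinStr) : LG.Structure ℕ :=
  { funMap := fun {_} f => isEmptyElim f
    RelMap := fun {n} Q => match n, Q with
      | _, FirstOrder.Language.graphRel.adj => fun v => y (v 0) (v 1) = true }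

theorem gd_ofg (y : BinStr) (u v : ℕ) : gd (ofg y) u v ↔ y u v = true := Iff.rfl

open Classical in
/-- the code of a graph structure -/
noncomputable def cdg (S : LG.Structure ℕ) : BinStr := fun u v => decide (gd S u v)

theorem cdg_iff (S : LG.Structure ℕ) (u v : ℕ) : cdg S u v = true ↔ gd S u v := by
  simp [cdg]

theorem gd_iso {S S' : LG.Structure ℕ} (h : SIso S S') :
    ∃ σ : Equiv.Perm ℕ, ∀ u v, gd S' (σ u) (σ v) ↔ gd S u v := by
  obtain ⟨e⟩ := h
  refine ⟨@FirstOrder.Language.Equiv.toEquiv LG ℕ ℕ S S' e, fun u v => ?_⟩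
  have h1 := iso_rel e FirstOrder.Language.adj ![u, v]
  have h2 : (fun i => e (![u, v] i)) = ![e u, e v] := by
    funext i
    fin_cases i <;> rfl
  rw [h2] at h1
  exact h1

/-- coding of graph structures -/
noncomputable def cg : Coding LG BinStr BIso where
  of := ofg
  cd := cdg
  ofcd S := siso_gd 1 fun u v => by
    rw [gd_ofg, cdg_iff]
    exact Iff.rfl
  iso y z := by
    constructor
    · rintro ⟨σ, h⟩
      refine siso_gd σ fun u v => ?_
      rw [gd_ofg, gd_ofg, h]
    · intro h
      obtain ⟨σ, h⟩ := gd_iso h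
      refine ⟨σ, fun u v => ?_⟩
      rw [Bool.eq_iff_iff]
      exact h u v
  bp n R a := by
    cases R with
    | adj => exact bp_atom (a 0) (a 1)
  me f hf := by
    refine measurable_pi_iff.2 fun u => measurable_pi_iff.2 fun v => measurable_to_bool ?_
    refine (congrArg MeasurableSet (Set.ext fun y => ?_)).mp
      (hf 2 FirstOrder.Language.adj ![u, v])
    show gd (f y) u v ↔ cdg (f y) u v = true
    exact (cdg_iff _ u v).symm

/-- coding of pairs of binary relations -/
noncomputable def cp : Coding L2 PairStr PIso where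
  of := ofp
  cd := ps
  ofcd S := (siso_ofp_ps S).symm
  iso y z := ⟨siso_ofp, piso_ofp⟩
  bp n R a := by
    cases R with
    | fst => exact bp_fst (a 0) (a 1)
    | snd => exact bp_snd (a 0) (a 1)
  me f hf := by
    refine Measurable.prodMk ?_ ?_
    · refine measurable_pi_iff.2 fun u => measurable_pi_iff.2 fun v => measurable_to_bool ?_
      refine (congrArg MeasurableSet (Set.ext fun y => ?_)).mp (hf 2 R2.fst ![u, v])
      show g1 (f y) u v ↔ (ps (f y)).1 u v = true
      exact (ps1 _ u v).symm
    · refine measurable_pi_iff.2 fun u => measurable_pi_iff.2 fun v => measurable_to_bool ?_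
      refine (congrArg MeasurableSet (Set.ext fun y => ?_)).mp (hf 2 R2.snd ![u, v])
      show g2 (f y) u v ↔ (ps (f y)).2 u v = true
      exact (ps2 _ u v).symm

end Pool.Agent.Q216.MI
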