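import Pool.Agent.Q216.MI.Bor
import Pool.Agent.TH783.FC.Itp
import Pool.Agent.TH783.MD.Emb

set_option autoImplicit false

/-! Complete classes of graphs: flipped crossings and comparability grids. -/

namespace Pool.Agent.Q216.MI

open FirstOrder FirstOrder.Language
open Pool.Agent.W889.FO Pool.Agent.W889.VC
open Pool.Agent.W889.FO.StE (LG gd siso_gd)
open Pool.Agent.W889.SD (Big rel K3)

/-- Vaught's conjecture for the graphs in `P` is equivalent to the full conjecture. -/
structure Hard (P : (ℕ → ℕ → Prop) → Prop) : Prop where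
  fo : (∀ T' : LG.Theory, T'.IsComplete → (∀ S : LG.Structure ℕ,
      @Theory.Model LG ℕ S T' → P (gd S)) → VaughtF LG T') →
      ∀ (L : FirstOrder.Language.{0, 0}), Countable L.Symbols → ∀ T : L.Theory, VaughtF L T
  bo : Faithful BIso fun y => P fun u v => y u v = true

theorem Hard.mono {P P' : (ℕ → ℕ → Prop) → Prop} (h : Hard P) (hP : ∀ R, P R → P' R) :
    Hard P' where
  fo hV := h.fo fun T' h1 h2 => hV T' h1 fun S hS => hP _ (h2 S hS)
  bo := h.bo.mono fun _ hy => hP _ hy

theorem hard_sub {r : ℕ} (s : Bool) {f : ℕ → ℕ → Prop} (hr : 1 ≤ r)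
    (hf : ∀ a b, f a b → f b a) : Hard (Pool.Agent.TH783.FC.Sub r s f) where
  fo hV L hL T := Pool.Agent.TH783.FC.main (s := s) hr hf hV L hL T
  bo := by
    have := StD.countable_LG
    refine itp_faithful cg cg (Pool.Agent.TH783.FC.itp r s f)
      (fun S S' h h' hi => Pool.Agent.TH783.FC.up h h' hi)
      Pool.Agent.W889.SD.target_K3.faithful (fun x hx => ?_) (fun y hy => hy.sub hr)
    refine Pool.Agent.TH783.FC.ex hr hf (ofg x) (fun u v h => hx.1.symm u v h) (fun u h => ?_)
      hx.2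
    have h1 : x u u = true := h
    rw [hx.1.irrefl u] at h1
    exact absurd h1 (by decide)

theorem hard_md {r : ℕ} (s : Bool) {f : ℕ → ℕ → Prop} (hr : 1 ≤ r)
    (hf : ∀ a b, f a b → f b a) (hs : s = true → r = 1) {P : (ℕ → ℕ → Prop) → Prop}
    (hP : ∀ S : LG.Structure ℕ, Pool.Agent.TH783.MD.WS r s f S → P (gd S)) : Hard P where
  fo hV L hL T := Pool.Agent.TH783.MD.main (s := s) hr hf hs
    (fun T' h1 h2 => hV T' h1 fun S hS => hP S (h2 S hS)) L hL T
  bo := by
    have := StD.countable_LG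
    refine itp_faithful cp cg (Pool.Agent.TH783.MD.itp r s f)
      (fun S S' h h' hi => Pool.Agent.TH783.MD.up h h' hi)
      Pool.Agent.TH686.DO.faithful_DD (fun x hx => ?_) (fun y hy => hP _ hy)
    exact Pool.Agent.TH783.MD.ex hr hf hs (Pool.Agent.TH686.FO.ofp x) hx.1 hx.2

/-- induced subgraphs of the half graph crossings -/
def HSub (r : ℕ) (f : ℕ → ℕ → Prop) (R : ℕ → ℕ → Prop) : Prop :=
  ∃ g : ℕ → Pool.Agent.TH783.MD.Vx ℚ r, Function.Injective g ∧
    ∀ u v, R u v ↔ Pool.Agent.TH783.MD.Hc r f (g u) (g v)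

/-- induced subgraphs of the comparability grid -/
def GSub (R : ℕ → ℕ → Prop) : Prop :=
  ∃ g : ℕ → ℚ × ℚ, Function.Injective g ∧
    ∀ u v, R u v ↔ g u ≠ g v ∧ Pool.Agent.TH783.MD.cg (g u) (g v)

theorem hard_half {r : ℕ} {f : ℕ → ℕ → Prop} (hr : 1 ≤ r) (hf : ∀ a b, f a b → f b a) :
    Hard (HSub r f) :=
  hard_md false hr hf (by simp) fun _ h => h.half hr

theorem hard_grid : Hard GSub :=
  hard_md (r := 1) (f := fun _ _ => False) true le_rfl (fun _ _ h => h) (fun _ => rfl)
    fun _ h => h.grid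

end Pool.Agent.Q216.MI
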